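import Mathlib
import Pool.Agent.W281.ExpIP.PS
import Pool.Agent.W281.ExpIP.TwoColMain

/-!
Exponential IP sets, the full answer.

* Type I: for every `r ≥ 2` (in particular for two cells) there is a partition of `ℕ` into `r`
  nonempty cells none of which is an exponential IP set of type I.
* Type II: in every partition of `ℕ` into finitely many cells some cell is an exponential IP set
  of type II.

Type I, idea: colour `n` by `C(⌊log₂ log₂ n⌋)`, where `C(M) = 1 + C(m)` for `m = ⌊log₂ M⌋`, except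
that the value is flipped when `C(m) ≠ C(m-1)`, `M ≤ 2^m + m` and `M ≢ m (mod 3)`.

Type II, idea: the infinite set is `x_j = b_j ^ e_j`, where the bases `b_j` are taken from an
idempotent ultrafilter `β` on the powers of two, `C(E) = β-lim c(b ^ E)` is the limit colouring of
the exponents, and the exponents `e_j` are taken from a decreasing sequence of multiplicatively
piecewise syndetic sets produced by the IP van der Waerden theorem.
-/

set_option autoImplicit false

namespace Pool.Agent.Results.MP_952e1b_co.FullAnswer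

open Hindman Pool.Agent.W281.ExpIP

/-- The sets `FE^I_n(X)` for `X = {x 0 < x 1 < ...}`: `FE^I_0(X) = {x 0}` and
`FE^I_{n+1}(X) = {y ^ x (n+1) : y ∈ FE^I_n(X)} ∪ FE^I_n(X) ∪ {x (n+1)}`. -/
def FE1 (x : ℕ → ℕ) : ℕ → Set ℕ
  | 0 => {x 0}
  | n + 1 => {z | ∃ y ∈ FE1 x n, z = y ^ x (n + 1)} ∪ FE1 x n ∪ {x (n + 1)}

/-- The sets `FE^II_n(X)` for `X = {x 0 < x 1 < ...}`: `FE^II_0(X) = {x 0}` and
`FE^II_{n+1}(X) = {x (n+1) ^ y : y ∈ FE^II_n(X)} ∪ FE^II_n(X) ∪ {x (n+1)}`. -/
def FE2 (x : ℕ → ℕ) : ℕ → Set ℕ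
  | 0 => {x 0}
  | n + 1 => {z | ∃ y ∈ FE2 x n, z = x (n + 1) ^ y} ∪ FE2 x n ∪ {x (n + 1)}

/-- `C` is an exponential IP set of type I: there is an infinite set `X = {x 0 < x 1 < ...}` of
natural numbers with `FE^I(X) = ⋃ n, FE^I_n(X) ⊆ C`. -/
def IsExpIP1 (C : Set ℕ) : Prop :=
  ∃ x : ℕ → ℕ, StrictMono x ∧ (⋃ n, FE1 x n) ⊆ C

/-- `C` is an exponential IP set of type II: there is an infinite set `X = {x 0 < x 1 < ...}` of
natural numbers with `FE^II(X) = ⋃ n, FE^II_n(X) ⊆ C`. -/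
def IsExpIP2 (C : Set ℕ) : Prop :=
  ∃ x : ℕ → ℕ, StrictMono x ∧ (⋃ n, FE2 x n) ⊆ C

attribute [local instance] Ultrafilter.mul Ultrafilter.semigroup

/-- The ultrafilter limit of a colouring with finitely many colours. -/
theorem exists_lim {α : Type} {r : ℕ} (U : Ultrafilter α) (f : α → Fin r) :
    ∃ k, ∀ᶠ b in (U : Filter α), f b = k := by
  obtain ⟨k, hk⟩ := (U.map f).eq_pure_of_finite
  refine ⟨k, ?_⟩
  have h : {k} ∈ (U.map f : Ultrafilter (Fin r)) := by
    rw [hk]
    exact Set.mem_singleton k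
  exact h

theorem typeTwo : ∀ (r : ℕ) (c : ℕ → Fin r), ∃ k : Fin r, IsExpIP2 (c ⁻¹' {k}) := by
  classical
  intro r c
  -- an idempotent ultrafilter on the positive integers, living on the powers of two
  obtain ⟨U, hU, hFP⟩ := exists_idempotent_ultrafilter_le_FP (M := ℕ+) (Stream'.const 2)
  have hge : ∀ m ∈ FP (Stream'.const (2 : ℕ+)), (2 : ℕ) ≤ (m : ℕ) := by
    intro m hm
    generalize hs : Stream'.const (2 : ℕ+) = s at hm
    induction hm with
    | head' a =>
      subst hs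
      exact le_of_eq rfl
    | tail' a m _ ih =>
      subst hs
      exact ih rfl
    | cons' a m _ ih =>
      subst hs
      have h1 := ih rfl
      have h2 : (((Stream'.const (2 : ℕ+)).head * m : ℕ+) : ℕ) = 2 * (m : ℕ) := rfl
      rw [h2]
      omega
  have hU2 : ∀ᶠ (b : ℕ+) in (U : Filter ℕ+), (2 : ℕ) ≤ (b : ℕ) := by
    filter_upwards [hFP] with b hb using hge b hb
  -- the limit colouring of the exponents
  have hC : ∀ E : ℕ, ∃ k, ∀ᶠ (b : ℕ+) in (U : Filter ℕ+), c ((b : ℕ) ^ E) = k :=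
    fun E => exists_lim U (fun b : ℕ+ => c ((b : ℕ) ^ E))
  choose C hC using hC
  -- a piecewise syndetic colour class
  obtain ⟨k, hk⟩ : ∃ k : Fin r, PS {e : ℕ+ | C e = k} := by
    apply PS.iUnion
    refine Thick.ps ?_
    intro Z
    refine ⟨1, fun x _ => ?_⟩
    exact Set.mem_iUnion.2 ⟨C ((1 * x : ℕ+) : ℕ), rfl⟩
  refine ⟨k, ?_⟩
  -- the invariant
  let Good : ℕ × Finset ℕ × Set ℕ+ → Prop := fun s =>
    (∀ y ∈ s.2.1, c y = k ∧ 0 < y) ∧ PS s.2.2 ∧
      ∀ e ∈ s.2.2, ∀ y ∈ insert 1 s.2.1, C ((e : ℕ) * y) = k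
  have step : ∀ s, Good s → ∃ s', Good s' ∧ s.1 < s'.1 ∧
      s'.2.1 = s.2.1 ∪ {s'.1} ∪ s.2.1.image (fun y => s'.1 ^ y) := by
    rintro ⟨x0, Y, D⟩ ⟨hY, hD, hDC⟩
    -- a large element of `D`
    obtain ⟨e, he, hex⟩ : ∃ e ∈ D, x0 < (e : ℕ) := by
      obtain ⟨T, hT⟩ := hD
      obtain ⟨z, hz⟩ := hT {⟨x0 + 1, Nat.succ_pos _⟩}
      obtain ⟨t, _, ht⟩ := hz _ (Finset.mem_singleton_self _)
      refine ⟨_, ht, ?_⟩
      have h1 : 1 ≤ (t : ℕ) := t.2
      have h2 : 1 ≤ (z : ℕ) := z.2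
      have h3 : ((t * (z * ⟨x0 + 1, Nat.succ_pos _⟩) : ℕ+) : ℕ) = t * (z * (x0 + 1)) := rfl
      rw [h3]
      calc x0 < 1 * (1 * (x0 + 1)) := by omega
        _ ≤ t * (z * (x0 + 1)) := Nat.mul_le_mul h1 (Nat.mul_le_mul h2 le_rfl)
    let F : Finset ℕ := (insert 1 Y).image (fun y => (e : ℕ) * y)
    have hG : {b : ℕ+ | (2 : ℕ) ≤ (b : ℕ) ∧ ∀ E ∈ F, c ((b : ℕ) ^ E) = k} ∈ U := by
      have h1 : ∀ᶠ (b : ℕ+) in (U : Filter ℕ+), ∀ E ∈ F, c ((b : ℕ) ^ E) = k := by
        rw [Filter.eventually_all_finset]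
        intro E hE
        obtain ⟨y, hy, rfl⟩ := Finset.mem_image.1 hE
        have h2 := hC ((e : ℕ) * y)
        rw [hDC e he y hy] at h2
        exact h2
      exact hU2.and h1
    obtain ⟨b, ⟨hb2, hb⟩, hPS⟩ := ip_vdw U hU _ hG D hD F
    refine ⟨((b : ℕ) ^ (e : ℕ), Y ∪ {(b : ℕ) ^ (e : ℕ)} ∪ Y.image (fun y => ((b : ℕ) ^ (e : ℕ)) ^ y),
      {e' : ℕ+ | e' ∈ D ∧ ∀ E ∈ F, b ^ E * e' ∈ D}), ⟨?_, hPS, ?_⟩, ?_, rfl⟩
    · intro y hy
      simp only [Finset.mem_union, Finset.mem_singleton, Finset.mem_image] at hy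
      rcases hy with (hy | hy) | ⟨y', hy', rfl⟩
      · exact hY y hy
      · subst hy
        refine ⟨?_, by positivity⟩
        apply hb
        exact Finset.mem_image.2 ⟨1, by simp, by simp⟩
      · refine ⟨?_, by positivity⟩
        rw [← pow_mul]
        apply hb
        exact Finset.mem_image.2 ⟨y', by simp [hy'], rfl⟩
    · rintro e' ⟨he', hE'⟩ y hy
      simp only [Finset.mem_insert, Finset.mem_union, Finset.mem_singleton, Finset.mem_image] at hy
      have key : ∀ E ∈ F, C ((e' : ℕ) * (b : ℕ) ^ E) = k := by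
        intro E hE
        have h1 := hDC _ (hE' E hE) 1 (by simp)
        have h2 : ((b ^ E * e' : ℕ+) : ℕ) * 1 = (e' : ℕ) * (b : ℕ) ^ E := by
          rw [mul_one, PNat.mul_coe, PNat.pow_coe, mul_comm]
        rw [h2] at h1
        exact h1
      rcases hy with hy | (hy | hy) | ⟨y', hy', rfl⟩
      · exact hDC e' he' y (by simp [hy])
      · exact hDC e' he' y (by simp [hy])
      · subst hy
        exact key _ (Finset.mem_image.2 ⟨1, by simp, by simp⟩)
      · rw [← pow_mul]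
        exact key _ (Finset.mem_image.2 ⟨y', by simp [hy'], rfl⟩)
    · calc x0 < (e : ℕ) := hex
        _ < 2 ^ (e : ℕ) := Nat.lt_two_pow_self
        _ ≤ (b : ℕ) ^ (e : ℕ) := Nat.pow_le_pow_left hb2 _
  -- the initial state: obtained by one step from the empty state
  have hinit : Good (0, ∅, {e : ℕ+ | C e = k}) := by
    refine ⟨by simp, hk, ?_⟩
    intro e he y hy
    simp only [insert_empty_eq, Finset.mem_singleton] at hy
    subst hy
    rw [mul_one]
    exact he
  choose! f hf1 hf2 hf3 using step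
  let s : ℕ → ℕ × Finset ℕ × Set ℕ+ := fun n => f^[n + 1] (0, ∅, {e : ℕ+ | C e = k})
  have hs : ∀ n, s (n + 1) = f (s n) := fun n => Function.iterate_succ_apply' f (n + 1) _
  have hs0 : s 0 = f (0, ∅, {e : ℕ+ | C e = k}) := rfl
  have hgood : ∀ n, Good (s n) := by
    intro n
    induction n with
    | zero => rw [hs0]; exact hf1 _ hinit
    | succ n ih => rw [hs n]; exact hf1 _ ih
  refine ⟨fun n => (s n).1, ?_, ?_⟩
  · apply strictMono_nat_of_lt_succ
    intro n
    change (s n).1 < (s (n + 1)).1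
    rw [hs n]
    exact hf2 _ (hgood n)
  · have hFE : ∀ n, FE2 (fun n => (s n).1) n ⊆ ↑(s n).2.1 := by
      intro n
      induction n with
      | zero =>
        intro z hz
        have hz' : z = (s 0).1 := hz
        rw [hz', hs0, hf3 _ hinit]
        simp
      | succ n ih =>
        intro z hz
        have h3 := hf3 _ (hgood n)
        rw [← hs n] at h3
        rw [h3]
        simp only [Finset.coe_union, Finset.coe_singleton, Finset.coe_image, Set.mem_union,
          Set.mem_singleton_iff, Set.mem_image, Finset.mem_coe]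
        rcases hz with (⟨y, hy, rfl⟩ | hz) | hz
        · exact Or.inr ⟨y, ih hy, rfl⟩
        · exact Or.inl (Or.inl (ih hz))
        · exact Or.inl (Or.inr hz)
    intro z hz
    obtain ⟨n, hn⟩ := Set.mem_iUnion.1 hz
    exact ((hgood n).1 z (hFE n hn)).1

theorem FE1_eq (x : ℕ → ℕ) : ∀ n, FE1 x n = TwoCol.FE1 x n := by
  intro n
  induction n with
  | zero => rfl
  | succ n ih => rw [FE1, TwoCol.FE1, ih]

theorem FE1_shift (x : ℕ → ℕ) (r : ℕ) : ∀ n, FE1 (fun i => x (i + r)) n ⊆ FE1 x (n + r) := by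
  intro n
  induction n with
  | zero =>
    intro z hz
    have hz' : z = x (0 + r) := hz
    rw [hz', FE1_eq]
    exact TwoCol.self_mem x (0 + r)
  | succ n ih =>
    have e : n + 1 + r = n + r + 1 := by omega
    intro z hz
    rw [e]
    rcases hz with (⟨y, hy, hz⟩ | hz) | hz
    · refine Or.inl (Or.inl ⟨y, ih hy, ?_⟩)
      rw [hz]
      change y ^ x (n + 1 + r) = y ^ x (n + r + 1)
      rw [e]
    · exact Or.inl (Or.inr (ih hz))
    · right
      have hz' : z = x (n + 1 + r) := hz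
      rw [hz', e]
      rfl

theorem FE1_ge (x : ℕ → ℕ) (hx : StrictMono x) (r : ℕ) (hr : 1 ≤ r) :
    ∀ n, ∀ z ∈ FE1 (fun i => x (i + r)) n, r ≤ z := by
  have hge : ∀ i, r ≤ x (i + r) := fun i => by
    have : i + r ≤ x (i + r) := hx.id_le (i + r)
    omega
  intro n
  induction n with
  | zero =>
    intro z hz
    have hz' : z = x (0 + r) := hz
    rw [hz']
    exact hge 0
  | succ n ih =>
    intro z hz
    rcases hz with (⟨y, hy, hz⟩ | hz) | hz
    · have h1 := ih y hy
      rw [hz]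
      refine le_trans h1 ?_
      calc y = y ^ 1 := (pow_one y).symm
        _ ≤ y ^ x (n + 1 + r) := Nat.pow_le_pow_right (by omega) (le_trans hr (hge (n + 1)))
    · exact ih z hz
    · have hz' : z = x (n + 1 + r) := hz
      rw [hz']
      exact hge (n + 1)

theorem typeOne : ∀ r : ℕ, 2 ≤ r →
    ∃ c : ℕ → Fin r, Function.Surjective c ∧ ∀ k : Fin r, ¬ IsExpIP1 (c ⁻¹' {k}) := by
  intro r hr
  let c : ℕ → Fin r := fun n =>
    if h : n < r then ⟨n, h⟩ else if TwoCol.col n then ⟨1, by omega⟩ else ⟨0, by omega⟩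
  refine ⟨c, ?_, ?_⟩
  · intro k
    refine ⟨k.1, ?_⟩
    simp only [c, dif_pos k.2]
  · rintro k ⟨x, hx, hsub⟩
    have hx' : StrictMono (fun i => x (i + r)) := fun a b hab => hx (by omega)
    apply TwoCol.no_mono hx' (decide (k.1 = 1))
    intro z hz
    obtain ⟨n, hn⟩ := Set.mem_iUnion.1 hz
    rw [← FE1_eq] at hn
    have h1 : r ≤ z := FE1_ge x hx r (by omega) n z hn
    have h2 : c z = k := hsub (Set.mem_iUnion.2 ⟨_, FE1_shift x r n hn⟩)
    have h3 : ¬ z < r := by omega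
    change TwoCol.col z = decide (k.1 = 1)
    simp only [c, dif_neg h3] at h2
    rw [← h2]
    cases TwoCol.col z <;> simp

/-- **Full answer.** Type I: for every `r ≥ 2` there is a partition of `ℕ` into `r` nonempty cells
none of which is an exponential IP set of type I.  Type II: for every colouring of `ℕ` with
finitely many colours some colour class is an exponential IP set of type II. -/
theorem result :
    (∀ r : ℕ, 2 ≤ r →
      ∃ c : ℕ → Fin r, Function.Surjective c ∧ ∀ k : Fin r, ¬ IsExpIP1 (c ⁻¹' {k})) ∧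
    (∀ (r : ℕ) (c : ℕ → Fin r), ∃ k : Fin r, IsExpIP2 (c ⁻¹' {k})) :=
  ⟨typeOne, typeTwo⟩

end Pool.Agent.Results.MP_952e1b_co.FullAnswer
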